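import Pool.Agent.KS7_39.B5D.Q119.VS.Core

set_option autoImplicit false

open Finset Module

namespace B5D39.VS

/-- nonzero vectors of the span of `b` -/
noncomputable def Vb {n d : ℕ} (b : Fin d → Fin n → ZMod 2) : Finset (Fin n → ZMod 2) := by
  classical
  exact Finset.univ.filter (fun x => x ≠ 0 ∧ x ∈ Submodule.span (ZMod 2) (Set.range b))

lemma mem_Vb {n d : ℕ} (b : Fin d → Fin n → ZMod 2) (x : Fin n → ZMod 2) :
    x ∈ Vb b ↔ x ≠ 0 ∧ x ∈ Submodule.span (ZMod 2) (Set.range b) := by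
  classical
  unfold Vb
  simp

lemma Vb_card {n d : ℕ} (b : Fin d → Fin n → ZMod 2)
    (hb : finrank (ZMod 2) (Submodule.span (ZMod 2) (Set.range b)) = d) :
    (Vb b).card + 1 = 2 ^ d := by
  classical
  have h1 : Fintype.card (Submodule.span (ZMod 2) (Set.range b)) = 2 ^ d := by
    rw [Module.card_eq_pow_finrank (K := ZMod 2), hb, ZMod.card]
  have h2 : (Finset.univ.filter (fun x : Fin n → ZMod 2 =>
      x ∈ Submodule.span (ZMod 2) (Set.range b))).card = 2 ^ d := by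
    rw [← h1, Fintype.card_subtype]
  have h3 : insert (0 : Fin n → ZMod 2) (Vb b) = Finset.univ.filter (fun x : Fin n → ZMod 2 =>
      x ∈ Submodule.span (ZMod 2) (Set.range b)) := by
    ext x
    rw [Finset.mem_insert, mem_Vb, Finset.mem_filter]
    constructor
    · rintro (rfl | h)
      · exact ⟨Finset.mem_univ _, Submodule.zero_mem _⟩
      · exact ⟨Finset.mem_univ _, h.2⟩
    · rintro ⟨-, h⟩
      by_cases hx : x = 0
      · exact Or.inl hx
      · exact Or.inr ⟨hx, h⟩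
  rw [← h2, ← h3, Finset.card_insert_of_notMem]
  rw [mem_Vb]
  simp

lemma exists_basis {n d : ℕ} (V : Submodule (ZMod 2) (Fin n → ZMod 2))
    (hV : finrank (ZMod 2) V = d) :
    ∃ b : Fin d → Fin n → ZMod 2, Submodule.span (ZMod 2) (Set.range b) = V := by
  let B := Module.finBasisOfFinrankEq (ZMod 2) V hV
  refine ⟨fun i => (B i : Fin n → ZMod 2), ?_⟩
  have h1 : Set.range (fun i => (B i : Fin n → ZMod 2)) = V.subtype '' (Set.range B) := by
    rw [← Set.range_comp]
    rfl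
  rw [h1, ← Submodule.map_span, B.span_eq, Submodule.map_top, Submodule.range_subtype]

lemma choose_bound (T s : ℕ) (hs : 1 ≤ s) (p : ℝ) (hp : 0 ≤ p)
    (h : (T : ℝ) * p ^ 3 ≤ s / 256) : (T.choose s : ℝ) * (p ^ 3) ^ s ≤ (1 / 2) ^ (6 * s) := by
  have h1 : (T.choose s : ℝ) ≤ (T : ℝ) ^ s / (s.factorial : ℝ) := Nat.choose_le_pow_div s T
  have hf : (0 : ℝ) < (s.factorial : ℝ) := by exact_mod_cast s.factorial_pos
  have hs0 : (0 : ℝ) < s := by exact_mod_cast hs
  have h2 : (s : ℝ) ^ s / (s.factorial : ℝ) ≤ 4 ^ s := by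
    have h3 := Real.pow_div_factorial_le_exp (s : ℝ) hs0.le s
    refine h3.trans ?_
    have h4 : Real.exp (s : ℝ) = (Real.exp 1) ^ s := by
      rw [← Real.exp_nat_mul, mul_one]
    rw [h4]
    apply pow_le_pow_left₀ (Real.exp_pos 1).le
    have := Real.exp_one_lt_d9
    linarith
  calc (T.choose s : ℝ) * (p ^ 3) ^ s
      ≤ (T : ℝ) ^ s / (s.factorial : ℝ) * (p ^ 3) ^ s :=
        mul_le_mul_of_nonneg_right h1 (by positivity)
    _ = ((T : ℝ) * p ^ 3) ^ s / (s.factorial : ℝ) := by rw [mul_pow]; ring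
    _ ≤ ((s : ℝ) / 256) ^ s / (s.factorial : ℝ) := by
        apply div_le_div_of_nonneg_right _ hf.le
        exact pow_le_pow_left₀ (by positivity) h s
    _ = (s : ℝ) ^ s / (s.factorial : ℝ) / 256 ^ s := by rw [div_pow]; ring
    _ ≤ 4 ^ s / 256 ^ s := div_le_div_of_nonneg_right h2 (by positivity)
    _ = (1 / 2) ^ (6 * s) := by
        rw [← div_pow, pow_mul]
        norm_num

lemma lower_bound (d m : ℕ) (hm : 10 ≤ m) (hmd : m ≤ d) (c : ℕ) (hc : c + 1 = 2 ^ d) :
    (2 : ℝ) ^ (3 * 2 ^ (m - 10)) * (1 - (1 / 2 : ℝ) ^ (d - m + 6) / 2) ^ c ≤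
      2 * (1 / 2) ^ (5 * 2 ^ (m - 10)) := by
  set s := 2 ^ (m - 10) with hs
  set N : ℕ := 2 ^ (d - m + 7) with hN
  have hN0 : 1 ≤ N := Nat.one_le_two_pow
  have hNR : (0 : ℝ) < N := by exact_mod_cast hN0
  have h1 : (1 / 2 : ℝ) ^ (d - m + 6) / 2 = 1 / N := by
    rw [hN]
    push_cast
    rw [show d - m + 7 = (d - m + 6) + 1 by ring, pow_succ (2 : ℝ), one_div, inv_pow]
    field_simp
  rw [h1]
  have hN2 : (2 : ℝ) ≤ N := by
    have : 2 ≤ N := by
      rw [hN, show d - m + 7 = (d - m + 6) + 1 by ring, pow_succ]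
      have := Nat.one_le_two_pow (n := d - m + 6)
      omega
    exact_mod_cast this
  have hx0 : (1 / 2 : ℝ) ≤ 1 - 1 / N := by
    have : (1 : ℝ) / N ≤ 1 / 2 := one_div_le_one_div_of_le (by norm_num) hN2
    linarith
  have hx1 : 1 - 1 / (N : ℝ) ≤ 1 := by
    have : (0 : ℝ) ≤ 1 / N := by positivity
    linarith
  have h2 : (1 - 1 / (N : ℝ)) ^ N ≤ 1 / 2 := by
    have h3 := Real.one_sub_div_pow_le_exp_neg (n := N) (t := 1) (by
      exact_mod_cast hN0)
    refine h3.trans ?_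
    rw [Real.exp_neg]
    have := Real.exp_one_gt_d9
    rw [← one_div]
    apply one_div_le_one_div_of_le (by norm_num)
    linarith
  -- 2 ^ d = N * (8 s)
  have h4 : 2 ^ d = N * (8 * s) := by
    rw [hN, hs]
    rw [show (8 : ℕ) = 2 ^ 3 by norm_num, ← pow_add, ← pow_add]
    congr 1
    omega
  have h5 : (1 - 1 / (N : ℝ)) ^ (c + 1) ≤ (1 / 2) ^ (8 * s) := by
    rw [hc, h4, pow_mul]
    exact pow_le_pow_left₀ (pow_nonneg (by linarith) _) h2 _
  have h6 : (1 - 1 / (N : ℝ)) ^ c ≤ 2 * (1 / 2) ^ (8 * s) := by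
    have h7 : (1 - 1 / (N : ℝ)) ^ c * (1 / 2) ≤ (1 - 1 / (N : ℝ)) ^ (c + 1) := by
      rw [pow_succ]
      exact mul_le_mul_of_nonneg_left hx0 (pow_nonneg (by linarith) _)
    linarith
  calc (2 : ℝ) ^ (3 * s) * (1 - 1 / (N : ℝ)) ^ c
      ≤ (2 : ℝ) ^ (3 * s) * (2 * (1 / 2) ^ (8 * s)) :=
        mul_le_mul_of_nonneg_left h6 (by positivity)
    _ = 2 * (1 / 2) ^ (5 * s) := by
        rw [show 8 * s = 3 * s + 5 * s by ring, pow_add, one_div, inv_pow, inv_pow]
        field_simp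

def HasFew {E : Type*} [DecidableEq E] (V : Finset E) (t : ℕ) (A : Finset E) : Prop :=
  (A ∩ V).card ≤ t

def HasDisj {E : Type*} [DecidableEq E] (T : Finset (Finset E)) (s : ℕ) (A : Finset E) : Prop :=
  ∃ G ⊆ T, G.card = s ∧ (∀ S ∈ G, ∀ S' ∈ G, S ≠ S' → Disjoint S S') ∧ ∀ S ∈ G, S ⊆ A

lemma wt_few {E : Type*} [DecidableEq E] (X : Finset E) {p : ℝ} (h0 : 0 ≤ p) (h1 : p ≤ 1)
    (V : Finset E) (hV : V ⊆ X) (t : ℕ) [DecidablePred (HasFew V t)] :
    ∑ A ∈ X.powerset.filter (HasFew V t), wt X p A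
      ≤ 2 ^ t * (1 - p / 2) ^ V.card := by
  refine le_of_eq_of_le ?_ (wt_lower X h0 h1 V hV t)
  apply Finset.sum_congr _ (fun _ _ => rfl)
  ext A
  simp only [Finset.mem_filter, HasFew]

lemma wt_disj {E : Type*} [DecidableEq E] (X : Finset E) {p : ℝ} (h0 : 0 ≤ p) (h1 : p ≤ 1)
    (T : Finset (Finset E)) (hT : ∀ S ∈ T, S ⊆ X ∧ S.card = 3) (s : ℕ)
    [DecidablePred (HasDisj T s)] :
    ∑ A ∈ X.powerset.filter (HasDisj T s), wt X p A
      ≤ (T.card.choose s : ℝ) * (p ^ 3) ^ s := by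
  refine le_of_eq_of_le ?_ (wt_disjoint X h0 h1 T hT s)
  apply Finset.sum_congr _ (fun _ _ => rfl)
  ext A
  simp only [Finset.mem_filter, HasDisj]

lemma numeric (d m : ℕ) (hm : 10 ≤ m) (hmd : m ≤ d) :
    (2 : ℝ) ^ (3 * d - 2 * m) * ((1 / 2 : ℝ) ^ (d - m + 6)) ^ 3
      = ((2 ^ (m - 10) : ℕ) : ℝ) / 256 := by
  have h1 : (256 : ℝ) = 2 ^ 8 := by norm_num
  rw [h1, Nat.cast_pow, Nat.cast_ofNat, ← pow_mul, one_div, inv_pow, ← div_eq_mul_inv,
    div_eq_div_iff (by positivity) (by positivity), ← pow_add, ← pow_add]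
  congr 1
  omega

theorem exists_sumfree {n d m : ℕ} (hm : 10 ≤ m) (hmd : m ≤ d) (hn : n ≤ 2 * (d - m))
    (hs : n * d ≤ 2 ^ (m - 10)) :
    ∃ A : Finset (Fin n → ZMod 2), (0 : Fin n → ZMod 2) ∉ A ∧
      (∀ x ∈ A, ∀ y ∈ A, x ≠ y → x + y ∉ A) ∧
      ∀ V : Submodule (ZMod 2) (Fin n → ZMod 2), finrank (ZMod 2) V = d → ∃ x ∈ A, x ∈ V := by
  classical
  by_contra hcon
  push Not at hcon
  set s := 2 ^ (m - 10) with hsdef
  have hs1 : 1 ≤ s := Nat.one_le_two_pow
  set p : ℝ := (1 / 2) ^ (d - m + 6) with hp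
  have hp0 : 0 ≤ p := by positivity
  have hp1 : p ≤ 1 := pow_le_one₀ (by norm_num) (by norm_num)
  let X : Finset (Fin n → ZMod 2) := Finset.univ.erase 0
  have hX0 : (0 : Fin n → ZMod 2) ∉ X := by simp [X]
  let B : Finset (Fin d → Fin n → ZMod 2) := Finset.univ.filter
    (fun b => finrank (ZMod 2) (Submodule.span (ZMod 2) (Set.range b)) = d)
  have hbad : ∀ A ∈ X.powerset, ∃ b ∈ B, HasFew (Vb b) (3 * s) A ∨
      HasDisj (triples X (Vb b)) s A := by
    intro A hA
    rw [Finset.mem_powerset] at hA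
    obtain ⟨A', hA'A, hfree, hdel⟩ := delete X A hX0 hA
    obtain ⟨V, hV, hmiss⟩ := hcon A' (fun h0 => hX0 (hA (hA'A h0))) hfree
    obtain ⟨b, hb⟩ := exists_basis V hV
    refine ⟨b, ?_, ?_⟩
    · simp only [B, Finset.mem_filter, Finset.mem_univ, true_and]
      rw [hb, hV]
    · apply hdel (Vb b) s
      intro x hx hxV
      rw [mem_Vb, hb] at hxV
      exact hmiss x hx hxV.2
  -- the probability of a single bad event
  have hone : ∀ b ∈ B, ∑ A ∈ X.powerset.filter (HasFew (Vb b) (3 * s)), wt X p A +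
      ∑ A ∈ X.powerset.filter (HasDisj (triples X (Vb b)) s), wt X p A ≤
        2 * (1 / 2) ^ (5 * s) + (1 / 2) ^ (6 * s) := by
    intro b hb
    have hb' : finrank (ZMod 2) (Submodule.span (ZMod 2) (Set.range b)) = d := by
      simpa [B] using hb
    have hcard := Vb_card b hb'
    have hVX : Vb b ⊆ X := by
      intro x hx
      rw [mem_Vb] at hx
      simp [X, hx.1]
    apply add_le_add
    · exact (wt_few X hp0 hp1 (Vb b) hVX (3 * s)).trans (lower_bound d m hm hmd _ hcard)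
    · refine (wt_disj X hp0 hp1 (triples X (Vb b)) ?_ s).trans ?_
      · intro S hS
        exact (Finset.mem_filter.1 hS).2
      · apply choose_bound _ _ hs1 p hp0
        have h1 : ((triples X (Vb b)).card : ℝ) ≤ (2 : ℝ) ^ (3 * d - 2 * m) := by
          have h2 : (triples X (Vb b)).card ≤ 2 ^ (3 * d - 2 * m) := by
            refine (triples_card X (Vb b)).trans ?_
            calc (Vb b).card * 2 ^ n ≤ 2 ^ d * 2 ^ (2 * (d - m)) := by
                  apply Nat.mul_le_mul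
                  · omega
                  · exact Nat.pow_le_pow_right (by norm_num) hn
              _ = 2 ^ (3 * d - 2 * m) := by
                  rw [← pow_add]
                  congr 1
                  omega
          exact_mod_cast h2
        calc ((triples X (Vb b)).card : ℝ) * p ^ 3
            ≤ (2 : ℝ) ^ (3 * d - 2 * m) * p ^ 3 :=
              mul_le_mul_of_nonneg_right h1 (by positivity)
          _ = (s : ℝ) / 256 := numeric d m hm hmd
          _ ≤ (s : ℝ) / 256 := le_rfl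
  -- the union bound
  have htot : (1 : ℝ) ≤ (B.card : ℝ) * (2 * (1 / 2) ^ (5 * s) + (1 / 2) ^ (6 * s)) := by
    calc (1 : ℝ) = ∑ A ∈ X.powerset, wt X p A := (wt_sum X p).symm
      _ ≤ ∑ A ∈ X.powerset, ∑ b ∈ B, ((if HasFew (Vb b) (3 * s) A then wt X p A else 0) +
            (if HasDisj (triples X (Vb b)) s A then wt X p A else 0)) := by
          apply Finset.sum_le_sum
          intro A hA
          obtain ⟨b, hb, hE⟩ := hbad A hA
          have hw := wt_nonneg X hp0 hp1 A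
          have hnn : ∀ b ∈ B, 0 ≤ ((if HasFew (Vb b) (3 * s) A then wt X p A else 0) +
            (if HasDisj (triples X (Vb b)) s A then wt X p A else 0)) := by
            intro b _
            split_ifs <;> linarith
          refine le_trans ?_ (Finset.single_le_sum hnn hb)
          rcases hE with hE | hE
          · rw [if_pos hE]
            split_ifs <;> linarith
          · rw [if_pos hE]
            split_ifs <;> linarith
      _ = ∑ b ∈ B, (∑ A ∈ X.powerset.filter (HasFew (Vb b) (3 * s)), wt X p A +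
            ∑ A ∈ X.powerset.filter (HasDisj (triples X (Vb b)) s), wt X p A) := by
          rw [Finset.sum_comm]
          apply Finset.sum_congr rfl
          intro b _
          rw [Finset.sum_add_distrib, Finset.sum_filter, Finset.sum_filter]
      _ ≤ ∑ _b ∈ B, (2 * (1 / 2 : ℝ) ^ (5 * s) + (1 / 2) ^ (6 * s)) :=
          Finset.sum_le_sum hone
      _ = _ := by rw [Finset.sum_const, nsmul_eq_mul]
  have hBcard : (B.card : ℝ) ≤ 2 ^ (n * d) := by
    have h1 : B.card ≤ 2 ^ (n * d) := by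
      refine (Finset.card_filter_le _ _).trans ?_
      rw [Finset.card_univ]
      simp [ZMod.card, ← pow_mul]
    exact_mod_cast h1
  have hnd : (2 : ℝ) ^ (n * d) ≤ 2 ^ s := pow_le_pow_right₀ (by norm_num) hs
  have hfin : (B.card : ℝ) * (2 * (1 / 2) ^ (5 * s) + (1 / 2) ^ (6 * s)) < 1 := by
    have h1 : (2 * (1 / 2 : ℝ) ^ (5 * s) + (1 / 2) ^ (6 * s)) ≤ 3 * (1 / 2) ^ (5 * s) := by
      have : (1 / 2 : ℝ) ^ (6 * s) ≤ (1 / 2) ^ (5 * s) :=
        pow_le_pow_of_le_one (by norm_num) (by norm_num) (by omega)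
      linarith
    calc (B.card : ℝ) * (2 * (1 / 2) ^ (5 * s) + (1 / 2) ^ (6 * s))
        ≤ 2 ^ s * (3 * (1 / 2) ^ (5 * s)) :=
          mul_le_mul (hBcard.trans hnd) h1 (by positivity) (by positivity)
      _ = 3 * (1 / 2) ^ (4 * s) := by
          rw [show 5 * s = s + 4 * s by ring, pow_add, one_div, inv_pow, inv_pow]
          field_simp
      _ ≤ 3 * (1 / 2) ^ 4 := by
          apply mul_le_mul_of_nonneg_left _ (by norm_num)
          exact pow_le_pow_of_le_one (by norm_num) (by norm_num) (by omega)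
      _ < 1 := by norm_num
  linarith

end B5D39.VS
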